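import Pool.Agent.H664.QK.Stm

/-!
QK FV: from varieties to function fields (subtask 3271, helper738).
-/

set_option autoImplicit false

namespace Pool.Agent.H738.QK

open MvPolynomial
open Pool.Agent.H664.QK

/-- clearing denominators in `f (actF M p)` -/
lemma den {n : ℕ} (M : Matrix (Fin n) (Fin n) ℤ) (f : MvPolynomial (Fin n ⊕ Fin n) ℂ) :
    ∃ (G : MvPolynomial (Fin n ⊕ Fin n) ℂ) (a : ℕ), ∀ (K : Type) [Field K] [Algebra ℂ K]
      (p : Fin n ⊕ Fin n → K), (∀ j : Fin n, p (Sum.inr j) ≠ 0) →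
      aeval p G = (∏ j : Fin n, p (Sum.inr j)) ^ a * aeval (actF M p) f := by
  induction f using MvPolynomial.induction_on with
  | C c => exact ⟨C c, 0, fun K _ _ p hp => by simp⟩
  | add f g hf hg =>
    obtain ⟨G₁, a₁, h₁⟩ := hf
    obtain ⟨G₂, a₂, h₂⟩ := hg
    refine ⟨(∏ j : Fin n, X (Sum.inr j)) ^ a₂ * G₁ + (∏ j : Fin n, X (Sum.inr j)) ^ a₁ * G₂,
      a₁ + a₂, fun K _ _ p hp => ?_⟩
    rw [map_add, map_mul, map_mul, h₁ K p hp, h₂ K p hp]
    simp only [map_pow, map_prod, aeval_X, map_add]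
    ring
  | mul_X f i hf =>
    obtain ⟨G, a, h⟩ := hf
    rcases i with i | i
    · refine ⟨G * ∑ j : Fin n, C (M i j : ℂ) * X (Sum.inl j), a, fun K _ _ p hp => ?_⟩
      rw [map_mul, h K p hp, map_mul, aeval_X]
      simp only [map_sum, map_mul, aeval_X, actF, Sum.elim_inl, map_intCast]
      ring
    · let b : ℕ := ∑ j : Fin n, (M i j).natAbs
      have hb : ∀ j : Fin n, 0 ≤ (b : ℤ) + M i j := by
        intro j
        have h1 : (M i j).natAbs ≤ b :=
          Finset.single_le_sum (f := fun j => (M i j).natAbs) (fun _ _ => Nat.zero_le _)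
            (Finset.mem_univ j)
        omega
      refine ⟨G * ∏ j : Fin n, X (Sum.inr j) ^ ((b : ℤ) + M i j).toNat, a + b,
        fun K _ _ p hp => ?_⟩
      rw [map_mul, h K p hp, map_mul, aeval_X]
      have e1 : aeval p (∏ j : Fin n, X (Sum.inr j) ^ ((b : ℤ) + M i j).toNat :
          MvPolynomial (Fin n ⊕ Fin n) ℂ) =
          (∏ j : Fin n, p (Sum.inr j)) ^ b * actF M p (Sum.inr i) := by
        simp only [map_prod, map_pow, aeval_X, actF, Sum.elim_inr]
        rw [← Finset.prod_pow, ← Finset.prod_mul_distrib]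
        refine Finset.prod_congr rfl fun j _ => ?_
        rw [← zpow_natCast, Int.toNat_of_nonneg (hb j), zpow_add₀ (hp j), zpow_natCast]
      rw [e1, pow_add]
      ring

lemma ev {n : ℕ} (p : Fin n ⊕ Fin n → ℂ) (f : MvPolynomial (Fin n ⊕ Fin n) ℂ) :
    aeval p f = eval p f := rfl

section

variable {n : ℕ} {Ω : Type} [Field Ω] [Algebra ℂ Ω] (w : Fin n ⊕ Fin n → Ω)

/-- the points of the variety of `w` -/
def VV : Set (Fin n ⊕ Fin n → ℂ) :=
  {p | (∀ f ∈ RingHom.ker (aeval w : MvPolynomial (Fin n ⊕ Fin n) ℂ →ₐ[ℂ] Ω), eval p f = 0) ∧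
    ∀ j : Fin n, p (Sum.inr j) ≠ 0}

variable {w}

lemma van (hw : ∀ j : Fin n, w (Sum.inr j) ≠ 0) (f : MvPolynomial (Fin n ⊕ Fin n) ℂ) :
    (∀ p ∈ VV w, eval p f = 0) ↔ aeval w f = 0 := by
  constructor
  · intro h
    have hP : (RingHom.ker (aeval w : MvPolynomial (Fin n ⊕ Fin n) ℂ →ₐ[ℂ] Ω)).IsPrime :=
      RingHom.ker_isPrime _
    have h1 : f * ∏ j : Fin n, X (Sum.inr j) ∈ vanishingIdeal ℂ (zeroLocus ℂ
        (RingHom.ker (aeval w : MvPolynomial (Fin n ⊕ Fin n) ℂ →ₐ[ℂ] Ω))) := by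
      rw [mem_vanishingIdeal_iff]
      intro p hp
      rw [mem_zeroLocus_iff] at hp
      by_cases h2 : ∀ j : Fin n, p (Sum.inr j) ≠ 0
      · have h3 := h p ⟨fun f hf => by
          have := hp f hf
          rwa [ev] at this, h2⟩
        rw [map_mul, ev, h3, zero_mul]
      · push Not at h2
        obtain ⟨j, hj⟩ := h2
        rw [map_mul, map_prod]
        rw [Finset.prod_eq_zero (Finset.mem_univ j) (by rw [aeval_X, hj]), mul_zero]
    rw [IsPrime.vanishingIdeal_zeroLocus] at h1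
    rw [RingHom.mem_ker] at h1
    have h5 : aeval w f * ∏ j : Fin n, w (Sum.inr j) = 0 := by
      have : aeval w (f * ∏ j : Fin n, X (Sum.inr j)) = 0 := h1
      rw [map_mul, map_prod] at this
      simpa only [aeval_X] using this
    rcases mul_eq_zero.1 h5 with h6 | h6
    · exact h6
    · exact absurd h6 (Finset.prod_ne_zero_iff.2 fun j _ => hw j)
  · intro h p hp
    exact hp.1 f h

lemma vanM (hw : ∀ j : Fin n, w (Sum.inr j) ≠ 0) (M : Matrix (Fin n) (Fin n) ℤ)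
    (f : MvPolynomial (Fin n ⊕ Fin n) ℂ) :
    (∀ p ∈ actF M '' VV w, eval p f = 0) ↔ aeval (actF M w) f = 0 := by
  obtain ⟨G, a, hG⟩ := den M f
  have h1 := hG Ω w hw
  have h2 : (∏ j : Fin n, w (Sum.inr j)) ^ a ≠ 0 :=
    pow_ne_zero _ (Finset.prod_ne_zero_iff.2 fun j _ => hw j)
  have h3 : aeval (actF M w) f = 0 ↔ aeval w G = 0 := by
    rw [h1]
    constructor
    · intro h; rw [h, mul_zero]
    · intro h; exact (mul_eq_zero.1 h).resolve_left h2
  rw [h3, ← van hw G]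
  constructor
  · intro h p hp
    have h4 := hG ℂ p hp.2
    have h5 := h (actF M p) ⟨p, hp, rfl⟩
    rw [ev, ev] at h4
    rw [h4, h5, mul_zero]
  · rintro h _ ⟨p, hp, rfl⟩
    have h4 := hG ℂ p hp.2
    rw [ev, ev, h p hp] at h4
    have h7 : (∏ j : Fin n, p (Sum.inr j)) ^ a ≠ 0 :=
      pow_ne_zero _ (Finset.prod_ne_zero_iff.2 fun j _ => hp.2 j)
    exact (mul_eq_zero.1 h4.symm).resolve_left h7

omit [Algebra ℂ Ω] in
lemma idp_iff [Algebra ℂ Ω] {S : Set (Fin n ⊕ Fin n → ℂ)} {v : Fin n ⊕ Fin n → Ω}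
    (h : ∀ f : MvPolynomial (Fin n ⊕ Fin n) ℂ, (∀ p ∈ S, eval p f = 0) ↔ aeval v f = 0)
    (J : Finset (Fin n ⊕ Fin n)) : Idp S J ↔ AlgebraicIndependent ℂ (fun j : J => v j) := by
  rw [algebraicIndependent_iff]
  constructor
  · intro hI q hq
    have h1 : rename (Subtype.val : J → Fin n ⊕ Fin n) q = 0 := by
      refine hI _ ?_ ?_
      · intro i hi
        have := vars_rename (Subtype.val : J → Fin n ⊕ Fin n) q hi
        rw [Finset.mem_image] at this
        obtain ⟨j, -, rfl⟩ := this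
        exact j.2
      · rw [h, aeval_rename]
        exact hq
    exact rename_injective _ Subtype.val_injective (by rw [h1, map_zero])
  · intro hI f hf hf0
    obtain ⟨q, rfl⟩ := exists_rename_eq_of_vars_subset_range f
      (Subtype.val : J → Fin n ⊕ Fin n) Subtype.val_injective (by
        intro i hi
        exact ⟨⟨i, hf hi⟩, rfl⟩)
    rw [h, aeval_rename] at hf0
    rw [hI q hf0, map_zero]

end

lemma actF_inl {n : ℕ} {Ω : Type} [Field Ω] (M : Matrix (Fin n) (Fin n) ℤ)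
    (p : Fin n ⊕ Fin n → Ω) (i : Fin n) :
    actF M p (Sum.inl i) = ∑ j, (M i j : Ω) * p (Sum.inl j) := rfl

lemma actF_inr {n : ℕ} {Ω : Type} [Field Ω] (M : Matrix (Fin n) (Fin n) ℤ)
    (p : Fin n ⊕ Fin n → Ω) (i : Fin n) :
    actF M p (Sum.inr i) = ∏ j, p (Sum.inr j) ^ M i j := rfl

lemma main {n d : ℕ} (hV : Var n d) {Ω : Type} [Field Ω] [Algebra ℂ Ω] (x y : Fin n → Ω)
    (hF : FRt ℂ x y) (hT : Tr ℂ (Sum.elim x y) d) (hT' : ¬ Tr ℂ (Sum.elim x y) (d + 1)) :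
    ∃ z : Fin n → ℂ, ∀ g : MvPolynomial (Fin n ⊕ Fin n) ℂ, aeval (Sum.elim x y) g = 0 →
      eval (ex z) g = 0 := by
  set w : Fin n ⊕ Fin n → Ω := Sum.elim x y with hw
  have hw0 : ∀ j : Fin n, w (Sum.inr j) ≠ 0 := fun j => hF.y0 j
  have hI : IsVr (RingHom.ker (aeval w : MvPolynomial (Fin n ⊕ Fin n) ℂ →ₐ[ℂ] Ω)) (VV w) := by
    refine ⟨RingHom.ker_isPrime _, rfl, ?_⟩
    by_contra hE
    rw [Set.not_nonempty_iff_eq_empty] at hE
    have h1 : aeval w (1 : MvPolynomial (Fin n ⊕ Fin n) ℂ) = 0 := by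
      rw [← van hw0, hE]
      intro p hp
      exact absurd hp (Set.notMem_empty p)
    rw [map_one] at h1
    exact one_ne_zero h1
  have hFR : FRv (VV w) := by
    refine ⟨?_, ?_, ?_⟩
    · intro m hm c
      obtain ⟨i, hi⟩ := Function.ne_iff.1 hm
      by_contra hcon
      push Not at hcon
      have h1 := (vanM (w := w) hw0 (Matrix.of fun _ => m) (X (Sum.inl i) - C c)).1 (by
        rintro _ ⟨p, hp, rfl⟩
        rw [map_sub, eval_X, eval_C, actF_inl, sub_eq_zero]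
        exact hcon p hp)
      rw [map_sub, aeval_X, aeval_C, actF_inl, sub_eq_zero] at h1
      exact hF.add m hm c h1
    · intro m hm c
      obtain ⟨i, hi⟩ := Function.ne_iff.1 hm
      by_contra hcon
      push Not at hcon
      have h1 := (vanM (w := w) hw0 (Matrix.of fun _ => m) (X (Sum.inr i) - C c)).1 (by
        rintro _ ⟨p, hp, rfl⟩
        rw [map_sub, eval_X, eval_C, actF_inr, sub_eq_zero]
        exact hcon p hp)
      rw [map_sub, aeval_X, aeval_C, actF_inr, sub_eq_zero] at h1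
      exact hF.mul m hm c h1
    · intro M
      obtain ⟨J, hJ, hJ'⟩ := hF.rot M
      exact ⟨J, hJ, (idp_iff (vanM hw0 M) J).2 hJ'⟩
  obtain ⟨z, hz⟩ := hV _ (VV w) hI hFR (by
    obtain ⟨J, hJ, hJ'⟩ := hT
    exact ⟨J, hJ, (idp_iff (van hw0) J).2 hJ'⟩) (by
    intro J hJ hJ'
    exact hT' ⟨J, hJ, (idp_iff (van hw0) J).1 hJ'⟩)
  exact ⟨z, fun g hg => hz.1 g hg⟩

theorem fv : Pool.Agent.H664.QK.S_fv := by
  intro n d hV k Ω _ _ _ φ x y hF hT hT'
  let alg : Algebra ℂ Ω := ((algebraMap k Ω).comp (φ.symm : ℂ →+* k)).toAlgebra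
  have hmap : ∀ c : ℂ, algebraMap ℂ Ω c = algebraMap k Ω (φ.symm c) := fun c => rfl
  have hmap' : ∀ c : k, algebraMap ℂ Ω (φ c) = algebraMap k Ω c := fun c => by
    rw [hmap, RingEquiv.symm_apply_apply]
  have hAI : ∀ {ι : Type} (v : ι → Ω), AlgebraicIndependent ℂ v ↔ AlgebraicIndependent k v := by
    intro ι v
    exact algebraicIndependent_ringHom_iff_of_comp_eq φ (RingHom.id Ω) Function.injective_id
      (by
        ext c
        simp only [RingHom.comp_apply]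
        exact hmap' c)
  have hTr : ∀ (v : Fin n ⊕ Fin n → Ω) (e : ℕ), Tr ℂ v e ↔ Tr k v e := by
    intro v e
    unfold Tr
    constructor
    · rintro ⟨J, hJ, h⟩; exact ⟨J, hJ, (hAI _).1 h⟩
    · rintro ⟨J, hJ, h⟩; exact ⟨J, hJ, (hAI _).2 h⟩
  have hF' : FRt ℂ x y := by
    refine ⟨hF.y0, ?_, ?_, ?_⟩
    · intro m hm c
      rw [hmap]
      exact hF.add m hm _
    · intro m hm c
      rw [hmap]
      exact hF.mul m hm _
    · intro M
      exact (hTr _ _).2 (hF.rot M)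
  obtain ⟨z, hz⟩ := main hV x y hF' ((hTr _ _).2 hT) (fun h => hT' ((hTr _ _).1 h))
  refine ⟨z, fun g hg => hz _ ?_⟩
  have hc : (algebraMap ℂ Ω).comp (φ : k →+* ℂ) = algebraMap k Ω := RingHom.ext hmap'
  rw [aeval_def, eval₂_map, hc]
  exact hg

end Pool.Agent.H738.QK

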